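import Mathlib
import Pool.Graph.R_seed8.Helper292.SP.Lang

set_option autoImplicit false

/-!
# The combinatorial hypothesis, for actual objects and in the forcing language

The ground model objects are the sets `K`, `W`, `E`, the functions `d` (in the application `K` is the
set of all functions from `ℕ` to `ℕ` of the ground model and `d` is the identity) and `u`, and the
relation `R`. The forcing language is the one of `Pool.Agent.Helper292.SP.Lang`.
-/

namespace Pool.Agent.H735.MG

open Cardinal Set Filter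
open Pool.Agent.Helper292.SP (fnot fand fall fimp fiff fex fground meets)

/-- for all `n' ≤ n` there is `m' ≤ m` with `F n' m'` -/
def Hull (F : ℕ → ℕ → Prop) (n m : ℕ) : Prop := ∀ n' ≤ n, ∃ m' ≤ m, F n' m'

/-- The hypothesis:
* every `e` is related to some `w`;
* the family of the functions `u w` is unbounded (the functions are bounded by relations `g` which are
  total);
* every function is bounded everywhere by some `d c`, and for every function `g` there is a strictly
  increasing `d c` with `d c 0 = 0` and `g (d c j) ≤ d c (j + 1)`;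
* the selection property: for all relations `F w e` on the natural numbers, if for every `w` and every
  strictly increasing `d c` there is `c'` such that for all strictly increasing `d c'' ≥ d c'` and all
  `e`, there are infinitely many `n` for which the hull of `F w e` holds of `d c (d c'' n + 1)` and
  `d c (d c'' (n + 1))`, then there is a strictly increasing `d c` such that for all `w` and `e` there
  are infinitely many `n` for which the hull of `F w e` holds of `d c n` and `d c (n + 1)`;
* there are sets `ev e` of natural numbers, such that every set of natural numbers is some `ev e`, and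
  for all `w` and all strictly increasing `d c` with `d c 0 = 0` there is an infinite set `I` such that
  no infinite set `ev e` with `R w e` is almost contained in the union of the intervals
  `[d c j, d c (j + 1))` with `j` in `I`. -/
structure Hyp (K W E : Type) (d : K → ℕ → ℕ) (u : W → ℕ → ℕ) (R : W → E → Prop) : Prop where
  cover : ∀ e, ∃ w, R w e
  unb : ∀ g : ℕ → ℕ → Prop, (∀ n, ∃ m, g n m) → ∃ w, ∀ N, ∃ n, N ≤ n ∧ ∃ m, g n m ∧ m < u w n
  dom : ∀ g : ℕ → ℕ → Prop, (∀ n, ∃ m, g n m) → ∃ c, ∀ n, ∃ m, g n m ∧ m ≤ d c n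
  iter : ∀ g : ℕ → ℕ → Prop, (∀ n, ∃ m, g n m) →
    ∃ c, (StrictMono (d c) ∧ d c 0 = 0) ∧ ∀ j, ∃ m, g (d c j) m ∧ m ≤ d c (j + 1)
  select : ∀ F : W → E → ℕ → ℕ → Prop,
    (∀ w c, StrictMono (d c) → ∃ c', ∀ c'', StrictMono (d c'') ∧ (∀ n, d c' n ≤ d c'' n) →
      ∀ e N, ∃ n, N ≤ n ∧ Hull (F w e) (d c (d c'' n + 1)) (d c (d c'' (n + 1)))) →
    ∃ c, StrictMono (d c) ∧ ∀ w e N, ∃ n, N ≤ n ∧ Hull (F w e) (d c n) (d c (n + 1))
  points : ∃ ev : E → ℕ → Prop, (∀ x : ℕ → Prop, ∃ e, ∀ n, x n ↔ ev e n) ∧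
    ∀ w c, StrictMono (d c) ∧ d c 0 = 0 → ∃ I : ℕ → Prop, (∀ N, ∃ n, N ≤ n ∧ I n) ∧
      ∀ e, R w e → (∀ N, ∃ n, N ≤ n ∧ ev e n) →
        ∀ N, ∃ n, N ≤ n ∧ ev e n ∧ ∀ j, I j → ¬ (d c j ≤ n ∧ n < d c (j + 1))

section

variable {P : Type} [Preorder P]

/-- `Hull` in the forcing language -/
def HullN (F : ℕ → ℕ → Set P) (n m : ℕ) : Set P :=
  fall fun n' : ℕ => fimp (fground (n' ≤ n)) (fex fun m' : ℕ => fand (fground (m' ≤ m)) (meets (F n' m')))

/-- the named relation is total -/
def TotN (g : ℕ → ℕ → Set P) : Set P := fall fun n : ℕ => fex fun m : ℕ => meets (g n m)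

/-- there are infinitely many `n` with `φ n` -/
def InfN (φ : ℕ → Set P) : Set P := fall fun N : ℕ => fex fun n : ℕ => fand (fground (N ≤ n)) (φ n)

end

section

variable (P : Type) [Preorder P] (K W E : Type) (d : K → ℕ → ℕ) (u : W → ℕ → ℕ) (R : W → E → Prop)

/-- the clause `select` in the forcing language -/
def SelectN : Set P :=
  fall fun F : W → E → ℕ → ℕ → Set P => fimp
    (fall fun w : W => fall fun c : K => fimp (fground (StrictMono (d c))) (fex fun c' : K =>
      fall fun c'' : K => fimp (fground (StrictMono (d c'') ∧ ∀ n, d c' n ≤ d c'' n))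
        (fall fun e : E => InfN fun n => HullN (F w e) (d c (d c'' n + 1)) (d c (d c'' (n + 1))))))
    (fex fun c : K => fand (fground (StrictMono (d c)))
      (fall fun w : W => fall fun e : E => InfN fun n => HullN (F w e) (d c n) (d c (n + 1))))

/-- the clause `points` in the forcing language -/
def PointsN : Set P :=
  fex fun ev : E → ℕ → Set P => fand
    (fall fun x : ℕ → Set P => fex fun e : E => fall fun n : ℕ => fiff (meets (x n)) (meets (ev e n)))
    (fall fun w : W => fall fun c : K => fimp (fground (StrictMono (d c) ∧ d c 0 = 0))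
      (fex fun I : ℕ → Set P => fand (InfN fun n => meets (I n))
        (fall fun e : E => fimp (fground (R w e)) (fimp (InfN fun n => meets (ev e n))
          (InfN fun n => fand (meets (ev e n))
            (fall fun j : ℕ => fimp (meets (I j)) (fground (¬ (d c j ≤ n ∧ n < d c (j + 1))))))))))

/-- `Hyp` in the forcing language -/
def HypN : Set P :=
  fand (fground (∀ e, ∃ w, R w e))
  (fand (fall fun g : ℕ → ℕ → Set P => fimp (TotN g) (fex fun w : W => InfN fun n =>
    fex fun m : ℕ => fand (meets (g n m)) (fground (m < u w n))))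
  (fand (fall fun g : ℕ → ℕ → Set P => fimp (TotN g) (fex fun c : K => fall fun n : ℕ =>
    fex fun m : ℕ => fand (meets (g n m)) (fground (m ≤ d c n))))
  (fand (fall fun g : ℕ → ℕ → Set P => fimp (TotN g) (fex fun c : K =>
    fand (fground (StrictMono (d c) ∧ d c 0 = 0)) (fall fun j : ℕ =>
    fex fun m : ℕ => fand (meets (g (d c j) m)) (fground (m ≤ d c (j + 1))))))
  (fand (SelectN P K W E d) (PointsN P K W E d R)))))

end

/-! ### Menger sets, the cardinal numbers -/

/-- `X` has the Menger property (as in the frozen statement) -/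
def IsMenger (X : Set ℝ) : Prop :=
  ∀ U : ℕ → Set (Set ℝ), (∀ n, (∀ u ∈ U n, IsOpen u) ∧ X ⊆ ⋃₀ U n) →
    ∃ F : ℕ → Set (Set ℝ), (∀ n, F n ⊆ U n ∧ (F n).Finite) ∧ X ⊆ ⋃ n, ⋃₀ F n

/-- the additivity number of the Menger property -/
noncomputable def addMenger : Cardinal.{0} :=
  sInf {κ : Cardinal.{0} | ∃ 𝓕 : Set (Set ℝ), #𝓕 = κ ∧ (∀ X ∈ 𝓕, IsMenger X) ∧ ¬ IsMenger (⋃₀ 𝓕)}

/-- the bounding number -/
noncomputable def bb : Cardinal.{0} :=
  sInf {κ : Cardinal.{0} | ∃ B : Set (ℕ → ℕ), #B = κ ∧
    ∀ g : ℕ → ℕ, ∃ f ∈ B, ¬ ∀ᶠ n in atTop, f n ≤ g n}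

/-- groupwise dense families (as in the frozen statement) -/
def GDense (G : Set (Set ℕ)) : Prop :=
  (∀ A ∈ G, A.Infinite) ∧ (∀ A ∈ G, ∀ B : Set ℕ, B.Infinite → (B \ A).Finite → B ∈ G) ∧
    ∀ p : ℕ → ℕ, StrictMono p → p 0 = 0 → ∃ I : Set ℕ, I.Infinite ∧
      {m : ℕ | ∃ i ∈ I, p i ≤ m ∧ m < p (i + 1)} ∈ G

/-- the groupwise density number -/
noncomputable def gg : Cardinal.{0} :=
  sInf {κ : Cardinal.{0} | ∃ 𝒢 : Set (Set (Set ℕ)), #𝒢 = κ ∧ (∀ G ∈ 𝒢, GDense G) ∧ ⋂₀ 𝒢 = ∅}

/-- the sentence of the frozen statement S13275: `add(S_fin(O,O)) = max {b, g}` -/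
def Sentence : Prop := addMenger = max bb gg

end Pool.Agent.H735.MG
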