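import Mathlib
import Pool.Agent.H735.MG.Defs

set_option autoImplicit false

/-!
# The ground model: if `b < g` then a well-ordered set with `b` elements satisfies the requirements
-/

namespace Pool.Agent.H735.MG

open Cardinal Set Filter

theorem bb_mem : ∃ B : Set (ℕ → ℕ), #B = bb ∧ ∀ g : ℕ → ℕ, ∃ f ∈ B, ¬ ∀ᶠ n in atTop, f n ≤ g n := by
  have : {κ : Cardinal.{0} | ∃ B : Set (ℕ → ℕ), #B = κ ∧
      ∀ g : ℕ → ℕ, ∃ f ∈ B, ¬ ∀ᶠ n in atTop, f n ≤ g n}.Nonempty := by
    refine ⟨_, univ, rfl, fun g => ⟨fun n => g n + 1, mem_univ _, fun h => ?_⟩⟩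
    obtain ⟨n, hn⟩ := h.exists
    exact absurd (show g n + 1 ≤ g n from hn) (by omega)
  exact csInf_mem this

/-- fewer than `b` functions are bounded -/
theorem bounded_of_lt {ι : Type} (h : #ι < bb) (F : ι → ℕ → ℕ) :
    ∃ g : ℕ → ℕ, ∀ i, ∀ᶠ n in atTop, F i n ≤ g n := by
  by_contra hcon
  have h1 : bb ≤ #(range F) := by
    apply csInf_le'
    refine ⟨range F, rfl, fun g => ?_⟩
    obtain ⟨i, hi⟩ := not_forall.1 (not_exists.1 hcon g)
    exact ⟨F i, ⟨i, rfl⟩, hi⟩
  exact absurd (h1.trans Cardinal.mk_range_le) (not_le.2 h)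

theorem exists_index (h : bb < gg) : ∃ (W : Type) (_ : LinearOrder W) (u : W → ℕ → ℕ),
    Nonempty W ∧ (∀ f : ℕ → W, ∃ w, ∀ n, f n < w) ∧
    (∀ g : ℕ → ℕ, ∃ w, ∀ N, ∃ n, N ≤ n ∧ g n < u w n) ∧
    ∀ 𝒢 : W → Set (Set ℕ), (∀ w, GDense (𝒢 w)) → ∃ A : Set ℕ, A.Infinite ∧ ∀ w, A ∈ 𝒢 w := by
  classical
  obtain ⟨B, hB, hB'⟩ := bb_mem
  have hW : #(bb.ord.ToType) = bb := Cardinal.mk_ord_toType _
  obtain ⟨e⟩ : Nonempty (bb.ord.ToType ≃ B) := Cardinal.eq.1 (hW.trans hB.symm)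
  have hunb : ∀ g : ℕ → ℕ, ∃ w : bb.ord.ToType, ¬ ∀ᶠ n in atTop, (e w).1 n ≤ g n := by
    intro g
    obtain ⟨f, hf, hf'⟩ := hB' g
    refine ⟨e.symm ⟨f, hf⟩, ?_⟩
    rw [Equiv.apply_symm_apply]
    exact hf'
  have hne : Nonempty bb.ord.ToType := ⟨(hunb id).choose⟩
  refine ⟨bb.ord.ToType, inferInstance, fun w => (e w).1, hne, ?_, ?_, ?_⟩
  · intro f
    by_contra hcon
    push Not at hcon
    have h1 : ∀ n, ∃ g : ℕ → ℕ, ∀ w : Iic (f n), ∀ᶠ k in atTop, (e w.1).1 k ≤ g k := by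
      intro n
      refine bounded_of_lt ?_ _
      by_cases hinf : (Iic (f n)).Finite
      · have h2 : #(Iic (f n)) < ℵ₀ := Cardinal.lt_aleph0_iff_set_finite.2 hinf
        refine h2.trans_le ?_
        -- `b` is infinite
        by_contra hlt
        rw [not_le] at hlt
        have hfin : Finite bb.ord.ToType := by
          rw [← Cardinal.lt_aleph0_iff_finite, hW]
          exact hlt
        have := Fintype.ofFinite bb.ord.ToType
        obtain ⟨w, hw⟩ := hunb fun n => Finset.univ.sup fun w : bb.ord.ToType => (e w).1 n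
        exact hw (Eventually.of_forall fun n =>
          Finset.le_sup (f := fun w : bb.ord.ToType => (e w).1 n) (Finset.mem_univ w))
      · have h2 : #(Iio (f n)) < bb := by
          simpa using Cardinal.mk_Iio_lt (f n) (by simp)
        have h3 : (Iio (f n)).Infinite := by
          intro hf
          apply hinf
          rw [← Set.Iio_insert]
          exact hf.insert _
        rw [← Set.Iio_insert, Cardinal.mk_insert (by simp)]
        have h4 : ℵ₀ ≤ #(Iio (f n)) := by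
          rw [Cardinal.infinite_iff.symm]
          exact h3.to_subtype
        rw [Cardinal.add_one_eq h4]
        exact h2
    choose g hg using h1
    -- a common bound
    obtain ⟨w, hw⟩ := hunb fun m => (Finset.range (m + 1)).sup fun n => g n m
    obtain ⟨n, hn⟩ := hcon w
    apply hw
    filter_upwards [hg n ⟨w, hn⟩, eventually_ge_atTop n] with m hm hnm
    exact hm.trans (Finset.le_sup (f := fun n => g n m) (Finset.mem_range.2 (Nat.lt_succ_of_le hnm)))
  · intro g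
    obtain ⟨w, hw⟩ := hunb g
    refine ⟨w, fun N => ?_⟩
    by_contra hcon
    push Not at hcon
    exact hw (eventually_atTop.2 ⟨N, fun n hn => hcon n hn⟩)
  · intro 𝒢 h𝒢
    have h1 : (⋂₀ range 𝒢).Nonempty := by
      rw [nonempty_iff_ne_empty]
      intro h0
      have h2 : gg ≤ #(range 𝒢) := by
        apply csInf_le'
        exact ⟨range 𝒢, rfl, by rintro _ ⟨w, rfl⟩; exact h𝒢 w, h0⟩
      have h3 : #(range 𝒢) ≤ bb := Cardinal.mk_range_le.trans hW.le
      exact absurd (h2.trans h3) (not_le.2 h)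
    obtain ⟨A, hA⟩ := h1
    have h2 : ∀ w, A ∈ 𝒢 w := fun w => hA _ ⟨w, rfl⟩
    exact ⟨A, (h𝒢 hne.some).1 A (h2 _), h2⟩

end Pool.Agent.H735.MG
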