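import Mathlib
import Pool.Agent.H735.MG.Defs
import Pool.Graph.R_pool_sql_team_seeded_b0a926ef.R582.GG.Rep
import Pool.Graph.R_pool_sql_team_seeded_b0a926ef.R582.GG.Glue

set_option autoImplicit false

/-!
# The measure algebra forces the clauses on functions
-/

namespace Pool.Agent.H735.MG

open Set MeasureTheory Filter Topology
open scoped ENNReal
open Pool.Agent.Helper292.SP (fnot fand fall fimp fiff fex fground meets mem_fex mem_fimp)
open Pool.Agent.R582.Rand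
open Pool.Agent.R582.GG

variable {I : Type}

/-- functions are bounded by ground model functions -/
theorem exists_bound {g : ℕ → ℕ → Set (MAlg (mu I))} {q : MAlg (mu I)} (hq : q ∈ TotN g) :
    ∃ q' ≤ q, ∃ h : ℕ → ℕ, ∀ᵐ x ∂(mu I), x ∈ q'.s → ∀ n, ∃ m ≤ h n, x ∈ val (g n m) := by
  have h1 : ∀ n, ∀ᵐ x ∂(mu I), x ∈ q.s → ∃ m, x ∈ val (g n m) := fun n =>
    ((rep_ex fun k => rep_meets (g n k)).2 q).1 (hq n)
  obtain ⟨ε, hε0, hε⟩ := ENNReal.exists_pos_sum_of_countable q.pos ℕ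
  have h2 : ∀ n, ∃ N, mu I (q.s \ ⋃ k ∈ Finset.range (N + 1), val (g n k)) ≤ ε n := by
    intro n
    set H : ℕ → Set (Om I) := fun N => q.s \ ⋃ k ∈ Finset.range (N + 1), val (g n k) with hH
    have hanti : Antitone H := by
      intro N N' hN x hx
      refine ⟨hx.1, fun h => hx.2 ?_⟩
      simp only [mem_iUnion, exists_prop, Finset.mem_range] at h ⊢
      obtain ⟨k, hk, hk'⟩ := h
      exact ⟨k, by omega, hk'⟩
    have h3 := tendsto_measure_iInter_atTop (μ := mu I) (s := H)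
      (fun N => (q.meas.diff (Finset.measurableSet_biUnion _ fun k _ => val_meas _)).nullMeasurableSet)
      hanti ⟨0, measure_ne_top _ _⟩
    have h4 : mu I (⋂ N, H N) = 0 := by
      refine measure_mono_null (fun x hx => ?_) (ae_iff.1 (h1 n))
      simp only [mem_ofPred_eq, Classical.not_imp, not_exists]
      rw [mem_iInter] at hx
      refine ⟨(hx 0).1, fun k hk => (hx k).2 ?_⟩
      simp only [mem_iUnion, exists_prop, Finset.mem_range]
      exact ⟨k, by omega, hk⟩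
    rw [h4] at h3
    have h5 : ∀ᶠ N in atTop, (mu I ∘ H) N < (ε n : ℝ≥0∞) :=
      h3.eventually_lt_const (by exact_mod_cast hε0 n)
    obtain ⟨N, hN⟩ := h5.exists
    exact ⟨N, hN.le⟩
  choose h hh using h2
  set E : Set (Om I) := ⋂ n, ⋃ k ∈ Finset.range (h n + 1), val (g n k) with hE
  have hEm : MeasurableSet E := MeasurableSet.iInter fun n =>
    Finset.measurableSet_biUnion _ fun k _ => val_meas _
  have hne : mu I (q.s ∩ E) ≠ 0 := by
    intro h0
    have h3 : q.s ⊆ (q.s ∩ E) ∪ ⋃ n, (q.s \ ⋃ k ∈ Finset.range (h n + 1), val (g n k)) := by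
      intro x hx
      by_cases hxE : x ∈ E
      · exact Or.inl ⟨hx, hxE⟩
      · right
        rw [hE, mem_iInter, not_forall] at hxE
        obtain ⟨n, hn⟩ := hxE
        exact mem_iUnion.2 ⟨n, hx, hn⟩
    have h4 : mu I q.s ≤ ∑' n, (ε n : ℝ≥0∞) := by
      calc mu I q.s ≤ mu I ((q.s ∩ E) ∪ ⋃ n, (q.s \ ⋃ k ∈ Finset.range (h n + 1), val (g n k))) :=
            measure_mono h3
        _ ≤ mu I (q.s ∩ E) + mu I (⋃ n, (q.s \ ⋃ k ∈ Finset.range (h n + 1), val (g n k))) :=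
            measure_union_le _ _
        _ ≤ 0 + ∑' n, mu I (q.s \ ⋃ k ∈ Finset.range (h n + 1), val (g n k)) := by
            rw [h0]; gcongr; exact measure_iUnion_le _
        _ ≤ ∑' n, (ε n : ℝ≥0∞) := by
            rw [zero_add]; exact ENNReal.tsum_le_tsum hh
    exact absurd h4 (not_le.2 hε)
  refine ⟨q.inter E hEm hne, q.inter_le _ _ _, h, ae_of_all _ fun x hx n => ?_⟩
  have h3 : x ∈ ⋃ k ∈ Finset.range (h n + 1), val (g n k) := mem_iInter.1 hx.2 n
  simp only [mem_iUnion, exists_prop, Finset.mem_range] at h3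
  obtain ⟨k, hk, hk'⟩ := h3
  exact ⟨k, Nat.lt_succ_iff.1 hk, hk'⟩

theorem rep_infN {φ : ℕ → Set (MAlg (mu I))} {Q : ℕ → Om I → Prop} (h : ∀ n, Rep (φ n) (Q n)) :
    Rep (InfN φ) (fun x => ∀ N, ∃ n, N ≤ n ∧ Q n x) :=
  rep_all fun N : ℕ => rep_ex fun n : ℕ => rep_and (rep_ground (N ≤ n)) (h n)

theorem forces_unb {W : Type} {u : W → ℕ → ℕ} (hu : ∀ g : ℕ → ℕ, ∃ w, ∀ N, ∃ n, N ≤ n ∧ g n < u w n)
    (p : MAlg (mu I)) : p ∈ fall fun g : ℕ → ℕ → Set (MAlg (mu I)) =>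
      fimp (TotN g) (fex fun w : W => InfN fun n =>
        fex fun m : ℕ => fand (meets (g n m)) (fground (m < u w n))) := by
  intro g
  rw [mem_fimp]
  intro q _ hq
  obtain ⟨q', hq', h, hh⟩ := exists_bound hq
  refine ⟨q', hq', ?_⟩
  rw [mem_fex]
  intro r hr
  obtain ⟨w, hw⟩ := hu h
  refine ⟨r, le_rfl, w, ?_⟩
  rw [(rep_infN fun n => rep_ex fun m : ℕ => rep_and (rep_meets (g n m))
    (rep_ground (m < u w n))).2]
  filter_upwards [hh, le_iff_ae.1 hr] with x hx hxr hxq N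
  obtain ⟨n, hn, hn'⟩ := hw N
  obtain ⟨m, hm, hm'⟩ := hx (hxr hxq) n
  exact ⟨n, hn, m, hm', hm.trans_lt hn'⟩

theorem forces_dom (p : MAlg (mu I)) : p ∈ fall fun g : ℕ → ℕ → Set (MAlg (mu I)) =>
      fimp (TotN g) (fex fun c : ℕ → ℕ => fall fun n : ℕ =>
        fex fun m : ℕ => fand (meets (g n m)) (fground (m ≤ c n))) := by
  intro g
  rw [mem_fimp]
  intro q _ hq
  obtain ⟨q', hq', h, hh⟩ := exists_bound hq
  refine ⟨q', hq', ?_⟩
  rw [mem_fex]
  intro r hr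
  refine ⟨r, le_rfl, h, ?_⟩
  change r ∈ fall fun n : ℕ => fex fun m : ℕ => fand (meets (g n m)) (fground (m ≤ h n))
  rw [(rep_all fun n : ℕ => rep_ex fun m : ℕ => rep_and (rep_meets (g n m))
    (rep_ground (m ≤ h n))).2]
  filter_upwards [hh, le_iff_ae.1 hr] with x hx hxr hxq n
  obtain ⟨m, hm, hm'⟩ := hx (hxr hxq) n
  exact ⟨m, hm', hm⟩

/-- iteration -/
def it (h : ℕ → ℕ) : ℕ → ℕ
  | 0 => 0
  | j + 1 => max (it h j + 1) (h (it h j))

theorem it_mono (h : ℕ → ℕ) : StrictMono (it h) :=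
  strictMono_nat_of_lt_succ fun j => lt_of_lt_of_le (Nat.lt_succ_self _) (le_max_left _ _)

theorem forces_iter (p : MAlg (mu I)) : p ∈ fall fun g : ℕ → ℕ → Set (MAlg (mu I)) =>
      fimp (TotN g) (fex fun c : ℕ → ℕ => fand (fground (StrictMono c ∧ c 0 = 0))
        (fall fun j : ℕ => fex fun m : ℕ => fand (meets (g (c j) m)) (fground (m ≤ c (j + 1))))) := by
  intro g
  rw [mem_fimp]
  intro q _ hq
  obtain ⟨q', hq', h, hh⟩ := exists_bound hq
  refine ⟨q', hq', ?_⟩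
  rw [mem_fex]
  intro r hr
  refine ⟨r, le_rfl, it h, ⟨it_mono h, rfl⟩, ?_⟩
  change r ∈ fall fun j : ℕ => fex fun m : ℕ =>
    fand (meets (g (it h j) m)) (fground (m ≤ it h (j + 1)))
  rw [(rep_all fun j : ℕ => rep_ex fun m : ℕ => rep_and (rep_meets (g (it h j) m))
    (rep_ground (m ≤ it h (j + 1)))).2]
  filter_upwards [hh, le_iff_ae.1 hr] with x hx hxr hxq j
  obtain ⟨m, hm, hm'⟩ := hx (hxr hxq) (it h j)
  exact ⟨m, hm', hm.trans (le_max_right _ _)⟩

/-! ### Selection -/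

theorem down_hullN {P : Type} [Preorder P] (F : ℕ → ℕ → Set P) (n m : ℕ) : Down (HullN F n m) :=
  down_fall fun _ => down_fnot _

theorem hullN_mono {P : Type} [Preorder P] {F : ℕ → ℕ → Set P} {n n' m m' : ℕ} {p : P}
    (h : p ∈ HullN F n m) (hn : n' ≤ n) (hm : m ≤ m') : p ∈ HullN F n' m' := by
  intro k
  rw [mem_fimp]
  intro q hq hk
  have h1 := mem_fimp.1 (h k) q hq (le_trans (show k ≤ n' from hk) hn)
  obtain ⟨r, hr, h2⟩ := h1
  refine ⟨r, hr, ?_⟩
  rw [mem_fex] at h2 ⊢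
  intro s hs
  obtain ⟨t, ht, l, h3, h4⟩ := h2 s hs
  exact ⟨t, ht, l, le_trans (show l ≤ m from h3) hm, h4⟩

/-- `a < b` are consecutive elements of `A` -/
def Con (A : Set ℕ) (a b : ℕ) : Prop := a ∈ A ∧ b ∈ A ∧ a < b ∧ ∀ c ∈ A, ¬ (a < c ∧ c < b)

/-- the family of the ground model sets which are good for `F` -/
def Good {P : Type} [Preorder P] {E : Type} (F : E → ℕ → ℕ → Set P) (q : P) : Set (Set ℕ) :=
  {A | A.Infinite ∧ ∀ (e : E) (N : ℕ), ∀ r ≤ q, ∃ s ≤ r, ∃ a b, N ≤ a ∧ Con A a b ∧ s ∈ HullN (F e) a b}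

theorem good_almost {P : Type} [Preorder P] {E : Type} {F : E → ℕ → ℕ → Set P} {q : P} {A B : Set ℕ}
    (hA : A ∈ Good F q) (hB : B.Infinite) (hBA : (B \ A).Finite) : B ∈ Good F q := by
  classical
  refine ⟨hB, fun e N r hr => ?_⟩
  obtain ⟨M, hM⟩ := hBA.bddAbove
  obtain ⟨β, hβ, hβ'⟩ := hB.exists_gt (max N M)
  obtain ⟨s, hs, a, b, hNa, hab, hsab⟩ := hA.2 e β r hr
  have hex : ∃ c, c ∈ B ∧ a < c := by
    obtain ⟨c, hc, hc'⟩ := hB.exists_gt a
    exact ⟨c, hc, hc'⟩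
  -- the last element of `B` up to `a`
  have hfin : {c | c ∈ B ∧ c ≤ a}.Finite := (finite_Iic a).subset fun c hc => hc.2
  have hne : {c | c ∈ B ∧ c ≤ a}.Nonempty := ⟨β, hβ, hNa⟩
  obtain ⟨a', ha', hmax⟩ : ∃ a' ∈ {c | c ∈ B ∧ c ≤ a}, ∀ c ∈ {c | c ∈ B ∧ c ≤ a}, c ≤ a' :=
    ⟨sSup {c | c ∈ B ∧ c ≤ a}, Nat.sSup_mem hne hfin.bddAbove, fun c hc => le_csSup hfin.bddAbove hc⟩
  set b' := Nat.find hex with hb'
  have hb1 := Nat.find_spec hex
  have hβa : β ≤ a' := hmax β ⟨hβ, hNa⟩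
  have hb'A : b' ∈ A := by
    by_contra hcon
    have h1 := hM (show b' ∈ B \ A from ⟨hb1.1, hcon⟩)
    have h2 : M < β := lt_of_le_of_lt (le_max_right _ _) hβ'
    have h3 : a < b' := hb1.2
    omega
  have hbb' : b ≤ b' := by
    by_contra hcon
    rw [not_le] at hcon
    exact hab.2.2.2 b' hb'A ⟨hb1.2, hcon⟩
  refine ⟨s, hs, a', b', ((le_max_left _ _).trans hβ'.le).trans hβa, ⟨ha'.1, hb1.1, ?_, ?_⟩,
    hullN_mono hsab ha'.2 hbb'⟩
  · exact lt_of_le_of_lt ha'.2 hb1.2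
  · rintro c hc ⟨h1, h2⟩
    rcases le_or_gt c a with h3 | h3
    · exact absurd (hmax c ⟨hc, h3⟩) (not_le.2 h1)
    · exact absurd ⟨hc, h3⟩ (Nat.find_min hex h2)

/-- the premise of the selection property for `F` and a fixed `w` -/
def PremN {P : Type} [Preorder P] {E : Type} (F : E → ℕ → ℕ → Set P) (c c' : ℕ → ℕ) : Set P :=
  fall fun c'' : ℕ → ℕ => fimp (fground (StrictMono c'' ∧ ∀ n, c' n ≤ c'' n))
    (fall fun e : E => InfN fun n => HullN (F e) (c (c'' n + 1)) (c (c'' (n + 1))))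

theorem down_premN {P : Type} [Preorder P] {E : Type} (F : E → ℕ → ℕ → Set P) (c c' : ℕ → ℕ) :
    Down (PremN F c c') := down_fall fun _ => down_fnot _

/-- countably many candidates suffice -/
theorem exists_countable_cand {E : Type} {F : E → ℕ → ℕ → Set (MAlg (mu I))} {c : ℕ → ℕ}
    {q : MAlg (mu I)} (hq : q ∈ fex fun c' : ℕ → ℕ => PremN F c c') :
    ∃ H : ℕ → ℕ → ℕ, ∀ r ≤ q, ∃ s ≤ r, ∃ n, s ∈ PremN F c (H n) := by
  obtain ⟨A, hA, hA', hval⟩ := exists_val_aux {r : MAlg (mu I) | ∃ c', r ∈ PremN F c c'}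
  have h1 : ∀ n, ∃ h : ℕ → ℕ, ∀ r : MAlg (mu I), mu I (r.s \ A n) = 0 → r ∈ PremN F c h := by
    intro n
    rcases hA' n with h0 | ⟨s, ⟨c', hc'⟩, hs⟩
    · refine ⟨id, fun r hr => ?_⟩
      rw [h0, diff_empty] at hr
      exact absurd hr r.pos
    · exact ⟨c', fun r hr => down_premN F c c' s hc' r (null_diff_trans hr hs)⟩
  choose H hH using h1
  refine ⟨H, fun r hr => ?_⟩
  have h2 : mu I (r.s \ ⋃ n, A n) = 0 := by
    rw [← hval]
    intro s hs
    obtain ⟨t, ht, c', hc'⟩ := mem_fex.1 hq s (hs.trans hr)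
    exact ⟨t, ht, t, ⟨c', hc'⟩, le_rfl⟩
  have h3 : ∃ n, mu I (r.s ∩ A n) ≠ 0 := by
    by_contra hcon
    push Not at hcon
    apply r.pos
    have h4 : r.s ⊆ (r.s \ ⋃ n, A n) ∪ ⋃ n, r.s ∩ A n := by
      intro x hx
      by_cases hx' : x ∈ ⋃ n, A n
      · right
        obtain ⟨n, hn⟩ := mem_iUnion.1 hx'
        exact mem_iUnion.2 ⟨n, hx, hn⟩
      · exact Or.inl ⟨hx, hx'⟩
    exact measure_mono_null h4 (measure_union_null h2 (measure_iUnion_null hcon))
  obtain ⟨n, hn⟩ := h3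
  exact ⟨r.inter (A n) (hA n) hn, r.inter_le _ _ _, n, hH n _ (null_diff_of_subset inter_subset_right)⟩

theorem good_gdense {E : Type} {F : E → ℕ → ℕ → Set (MAlg (mu I))} {q : MAlg (mu I)}
    (hq : ∀ c : ℕ → ℕ, StrictMono c → q ∈ fex fun c' : ℕ → ℕ => PremN F c c') :
    GDense (Good F q) := by
  refine ⟨fun A hA => hA.1, fun A hA B hB hBA => good_almost hA hB hBA, fun i hi hi0 => ?_⟩
  obtain ⟨H, hH⟩ := exists_countable_cand (hq i hi)
  -- a strictly increasing function above all of them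
  set h : ℕ → ℕ := fun m => (Finset.range (m + 1)).sup fun n => H n m with hh
  have hHh : ∀ n m, n ≤ m → H n m ≤ h m := fun n m hnm =>
    Finset.le_sup (f := fun n => H n m) (Finset.mem_range.2 (Nat.lt_succ_of_le hnm))
  set k : ℕ → ℕ := fun m => ∑ j ∈ Finset.range (m + 1), (h j + 1) with hk
  have hkm : StrictMono k := strictMono_nat_of_lt_succ fun m => by
    simp only [hk]
    rw [Finset.sum_range_succ _ (m + 1)]
    omega
  have hhk : ∀ m, h m ≤ k m := fun m => by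
    simp only [hk]
    rw [Finset.sum_range_succ]
    omega
  refine ⟨range k, Set.infinite_range_of_injective hkm.injective, ?_, ?_⟩
  · refine Set.infinite_of_not_bddAbove fun ⟨M, hM⟩ => ?_
    have h1 : i (k (M + 1)) ∈ {m : ℕ | ∃ j ∈ range k, i j ≤ m ∧ m < i (j + 1)} :=
      ⟨k (M + 1), ⟨M + 1, rfl⟩, le_rfl, hi (Nat.lt_succ_self _)⟩
    have h2 := hM h1
    have h3 : M + 1 ≤ k (M + 1) := hkm.id_le _
    have h4 : k (M + 1) ≤ i (k (M + 1)) := hi.id_le _
    omega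
  · intro e N r hr
    obtain ⟨s, hs, n, hsn⟩ := hH r hr
    obtain ⟨M, hM⟩ : ∃ M, ∀ m, m < n → H n m ≤ M := by
      refine ⟨(Finset.range n).sup (H n), fun m hm => Finset.le_sup (f := H n) (Finset.mem_range.2 hm)⟩
    have h1 : StrictMono (fun m => k (m + M)) ∧ ∀ m, H n m ≤ k (m + M) := by
      refine ⟨fun a b hab => hkm (by omega), fun m => ?_⟩
      rcases lt_or_ge m n with h2 | h2
      · exact (hM m h2).trans ((by omega : M ≤ m + M).trans (hkm.id_le _))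
      · exact (hHh n m h2).trans ((hhk m).trans (hkm.monotone (by omega)))
    have h2 := mem_fimp.1 (hsn fun m => k (m + M)) s le_rfl h1
    obtain ⟨t, ht, h3⟩ := h2
    obtain ⟨v, hv, l, h4, h5⟩ := mem_fex.1 (h3 e (N + 1)) t le_rfl
    have hl : N + 1 ≤ l := h4
    have hkl : k (l + M) < k (l + 1 + M) := hkm (by omega)
    refine ⟨v, (hv.trans ht).trans hs, i (k (l + M) + 1) - 1, i (k (l + 1 + M)), ?_, ⟨?_, ?_, ?_, ?_⟩,
      hullN_mono h5 (Nat.sub_le _ _) le_rfl⟩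
    · have h6 : k (l + M) + 1 ≤ i (k (l + M) + 1) := hi.id_le _
      have h7 : l + M ≤ k (l + M) := hkm.id_le _
      omega
    · have h6 : i (k (l + M)) < i (k (l + M) + 1) := hi (Nat.lt_succ_self _)
      exact ⟨k (l + M), ⟨_, rfl⟩, by omega, by omega⟩
    · exact ⟨k (l + 1 + M), ⟨_, rfl⟩, le_rfl, hi (Nat.lt_succ_self _)⟩
    · have h6 : i (k (l + M)) < i (k (l + M) + 1) := hi (Nat.lt_succ_self _)
      have h7 : i (k (l + M) + 1) ≤ i (k (l + 1 + M)) := hi.monotone hkl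
      omega
    · rintro c ⟨_, ⟨j, rfl⟩, hj1, hj2⟩ ⟨h6, h7⟩
      have h8 : k j < k (l + 1 + M) := hi.lt_iff_lt.1 (hj1.trans_lt h7)
      have h9 : j < l + 1 + M := hkm.lt_iff_lt.1 h8
      have h10 : k j ≤ k (l + M) := hkm.monotone (by omega)
      have h11 : i (k j + 1) ≤ i (k (l + M) + 1) := hi.monotone (by omega)
      omega

theorem forces_select {W E : Type}
    (hW : ∀ 𝒢 : W → Set (Set ℕ), (∀ w, GDense (𝒢 w)) → ∃ A : Set ℕ, A.Infinite ∧ ∀ w, A ∈ 𝒢 w)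
    (p : MAlg (mu I)) : p ∈ SelectN (MAlg (mu I)) (ℕ → ℕ) W E id := by
  classical
  intro F
  rw [mem_fimp]
  intro q _ hq
  refine ⟨q, le_rfl, ?_⟩
  rw [mem_fex]
  intro r hr
  obtain ⟨A, hA0, hA⟩ := hW (fun w => Good (F w) q) (fun w => good_gdense fun c hc => by
    rw [mem_fex]
    intro s hs
    obtain ⟨t, ht, h1⟩ := mem_fimp.1 (hq w c) s hs hc
    obtain ⟨v, hv, h2⟩ := mem_fex.1 h1 t le_rfl
    exact ⟨v, hv.trans ht, h2⟩)
  set a : ℕ → ℕ := Nat.nth (· ∈ A) with ha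
  have hAi : (setOf (· ∈ A)).Infinite := hA0
  have ham : StrictMono a := Nat.nth_strictMono hAi
  refine ⟨r, le_rfl, a, ham, ?_⟩
  intro w e N
  rw [mem_fex]
  intro s hs
  obtain ⟨t, ht, x, y, hx, hxy, h1⟩ := (hA w).2 e (a N) s (hs.trans hr)
  refine ⟨t, ht, Nat.count (· ∈ A) x, ?_, ?_⟩
  · change N ≤ Nat.count (· ∈ A) x
    have h2 : Nat.nth (· ∈ A) (Nat.count (· ∈ A) x) = x := Nat.nth_count hxy.1
    by_contra hcon
    rw [not_le] at hcon
    have h3 := ham hcon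
    rw [ha] at h3 hx
    rw [h2] at h3
    exact absurd hx (not_le.2 h3)
  · have h2 : a (Nat.count (· ∈ A) x) = x := Nat.nth_count hxy.1
    have h3 : a (Nat.count (· ∈ A) x + 1) = y := by
      have h4 : Nat.count (· ∈ A) y = Nat.count (· ∈ A) x + 1 := by
        have h5 : Nat.count (· ∈ A) y = Nat.count (· ∈ A) (x + 1) := by
          apply le_antisymm
          · by_contra hcon
            rw [not_le] at hcon
            have h6 : a (Nat.count (· ∈ A) (x + 1)) < y := by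
              have h7 : Nat.count (· ∈ A) (x + 1) < Nat.count (· ∈ A) y := hcon
              exact Nat.nth_lt_of_lt_count h7
            have h8 : a (Nat.count (· ∈ A) (x + 1)) ∈ A := Nat.nth_mem_of_infinite hAi _
            have h9 : x < a (Nat.count (· ∈ A) (x + 1)) := by
              have h10 : x + 1 ≤ a (Nat.count (· ∈ A) (x + 1)) := Nat.le_nth_count hAi (x + 1)
              omega
            exact hxy.2.2.2 _ h8 ⟨h9, h6⟩
          · exact Nat.count_monotone _ hxy.2.2.1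
        rw [h5, Nat.count_succ, if_pos hxy.1]
      rw [← h4]
      exact Nat.nth_count hxy.2.1
    change t ∈ HullN (F w e) (a (Nat.count (· ∈ A) x)) (a (Nat.count (· ∈ A) x + 1))
    rw [h2, h3]
    exact h1

end Pool.Agent.H735.MG
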