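import Mathlib
import Pool.Agent.H735.MG.Rand
import Pool.Graph.R_pool_sql_team_seeded_b0a926ef.R582.GG.Force

set_option autoImplicit false

/-!
# The clause on points
-/

namespace Pool.Agent.H735.MG

open Set MeasureTheory Filter Topology
open scoped ENNReal
open Pool.Agent.Helper292.SP (fnot fand fall fimp fiff fex fground meets mem_fex mem_fimp)
open Pool.Agent.R582.Rand
open Pool.Agent.R582.GG

variable {W : Type}

/-- one half -/
noncomputable def half : unitInterval := ⟨1 / 2, by norm_num, by norm_num⟩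

/-- the set of the numbers with the bit `b` -/
def bt (b : Bool) : Set unitInterval := if b then Iio half else Ici half

theorem bt_meas (b : Bool) : MeasurableSet (bt b) := by
  unfold bt
  split_ifs
  · exact measurableSet_Iio
  · exact measurableSet_Ici

theorem bt_vol (b : Bool) : volume (bt b) = 2⁻¹ := by
  have h : ENNReal.ofReal (1 / 2) = 2⁻¹ := by
    rw [ENNReal.ofReal_div_of_pos (by norm_num)]
    simp
  unfold bt
  split_ifs
  · rw [unitInterval.volume_Iio]
    exact h
  · rw [unitInterval.volume_Ici]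
    change ENNReal.ofReal (1 - 1 / 2) = _
    rw [← h]
    norm_num

/-- the bits of the row `β` start with `s` -/
def Cyl (β : W) (s : List Bool) : Set (Om (W × ℕ)) :=
  {x | ∀ i (h : i < s.length), x (β, i) ∈ bt s[i]}

theorem cyl_snoc (β : W) (s : List Bool) (b : Bool) :
    Cyl β (s ++ [b]) = Cyl β s ∩ {x | x (β, s.length) ∈ bt b} := by
  ext x
  simp only [Cyl, mem_ofPred_eq, mem_inter_iff]
  constructor
  · intro h
    refine ⟨fun i hi => ?_, ?_⟩
    · have := h i (by simp; omega)
      simpa [List.getElem_append_left hi] using this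
    · have := h s.length (by simp)
      simpa using this
  · rintro ⟨h1, h2⟩ i hi
    rcases Nat.lt_or_ge i s.length with h | h
    · simpa [List.getElem_append_left h] using h1 i h
    · obtain rfl : i = s.length := by simp at hi; omega
      simpa using h2

theorem cyl_meas (β : W) (s : List Bool) : MeasurableSet (Cyl β s) := by
  induction s using List.reverseRecOn with
  | nil =>
    have : Cyl β ([] : List Bool) = univ := by
      ext x
      simp [Cyl]
    rw [this]
    exact MeasurableSet.univ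
  | append_singleton s b ih =>
    rw [cyl_snoc]
    exact ih.inter (coord_meas (bt_meas b) _)

theorem cyl_dep (β : W) (s : List Bool) : Dep {v : W × ℕ | v.1 = β ∧ v.2 < s.length} (Cyl β s) := by
  intro x y h
  simp only [Cyl, mem_ofPred_eq]
  constructor
  · intro hx i hi
    rw [← h (β, i) ⟨rfl, hi⟩]
    exact hx i hi
  · intro hx i hi
    rw [h (β, i) ⟨rfl, hi⟩]
    exact hx i hi

theorem cyl_mu (β : W) (s : List Bool) : mu (W × ℕ) (Cyl β s) = 2⁻¹ ^ s.length := by
  induction s using List.reverseRecOn with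
  | nil =>
    have : Cyl β ([] : List Bool) = univ := by
      ext x
      simp [Cyl]
    rw [this]
    simp
  | append_singleton s b ih =>
    rw [cyl_snoc, indep (A := {v : W × ℕ | v.1 = β ∧ v.2 < s.length}) (B := {(β, s.length)})
      (by
        rw [disjoint_singleton_right]
        rintro ⟨-, h⟩
        exact lt_irrefl _ h)
      (cyl_meas β s) (coord_meas (bt_meas b) _) (cyl_dep β s) (coord_dep _), ih,
      coord (bt_meas b), bt_vol, List.length_append, List.length_singleton, pow_succ]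

/-- the (random) set of the codes of the initial segments of the row `β` -/
def It (β : W) (j : ℕ) : Set (Om (W × ℕ)) := ⋃ s : List Bool, {x | Encodable.encode s = j ∧ x ∈ Cyl β s}

theorem it_meas (β : W) (j : ℕ) : MeasurableSet (It β j) := by
  refine MeasurableSet.iUnion fun s => ?_
  by_cases h : Encodable.encode s = j
  · simpa [h] using cyl_meas β s
  · simp [h]

theorem mem_it {β : W} {j : ℕ} {x : Om (W × ℕ)} :
    x ∈ It β j ↔ ∃ s : List Bool, Encodable.encode s = j ∧ x ∈ Cyl β s := by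
  simp [It]

theorem it_inf (β : W) (x : Om (W × ℕ)) (N : ℕ) : ∃ j, N ≤ j ∧ x ∈ It β j := by
  classical
  set s : ℕ → List Bool := fun n => List.ofFn fun i : Fin n => decide (x (β, (i : ℕ)) ∈ Iio half) with hs
  have h1 : ∀ n, x ∈ Cyl β (s n) := by
    intro n i hi
    simp only [hs, List.getElem_ofFn]
    by_cases h : x (β, i) ∈ Iio half
    · simp only [h, decide_true, bt, if_true]
    · have h0 : half ≤ x (β, i) := not_lt.1 fun h' => h (mem_Iio.2 h')
      simp only [h, decide_false, bt]
      exact h0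
  have h2 : Function.Injective fun n => Encodable.encode (s n) := by
    intro n m h
    have h3 := Encodable.encode_injective h
    have h4 := congrArg List.length h3
    simpa [hs] using h4
  by_contra hcon
  push Not at hcon
  have h3 : ∀ n, Encodable.encode (s n) ∈ Finset.range N := by
    intro n
    rw [Finset.mem_range]
    by_contra hlt
    exact hcon _ (not_lt.1 hlt) (mem_it.2 ⟨s n, rfl, h1 n⟩)
  exact (Set.infinite_of_injective_forall_mem h2 h3) (Finset.finite_toSet _)

theorem null_points [LinearOrder W] {w β : W} (hwβ : w < β) {i : ℕ → ℕ} (hi : StrictMono i)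
    {e : ℕ → Set (Om (W × ℕ))} (hem : ∀ n, MeasurableSet (e n))
    (hed : ∀ n, Dep {v : W × ℕ | v.1 ≤ w} (e n)) (N : ℕ) :
    mu (W × ℕ) {x | (∀ M, ∃ n, M ≤ n ∧ x ∈ e n) ∧ ∀ n, N ≤ n → x ∈ e n →
      ∃ j, x ∈ It β j ∧ i j ≤ n ∧ n < i (j + 1)} = 0 := by
  classical
  set Bd := {x : Om (W × ℕ) | (∀ M, ∃ n, M ≤ n ∧ x ∈ e n) ∧ ∀ n, N ≤ n → x ∈ e n →
      ∃ j, x ∈ It β j ∧ i j ≤ n ∧ n < i (j + 1)} with hBd
  have key : ∀ l : ℕ, mu (W × ℕ) Bd ≤ 2⁻¹ ^ l := by
    intro l
    obtain ⟨L, hL⟩ : ∃ L, ∀ s : List Bool, s.length < l → i (Encodable.encode s + 1) ≤ L := by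
      have hfin : {s : List Bool | s.length < l}.Finite := List.finite_length_lt Bool l
      obtain ⟨L, hL⟩ := (hfin.image fun s => i (Encodable.encode s + 1)).bddAbove
      exact ⟨L, fun s hs => hL ⟨s, hs, rfl⟩⟩
    set K := max N L with hK
    set G : ℕ → Set (Om (W × ℕ)) := fun n => if K ≤ n then e n \ ⋃ m ∈ Finset.Ico K n, e m else ∅ with hG
    have hGm : ∀ n, MeasurableSet (G n) := by
      intro n
      simp only [hG]
      split_ifs
      · exact (hem n).diff (Finset.measurableSet_biUnion _ fun m _ => hem m)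
      · exact MeasurableSet.empty
    have hGd : ∀ n, Dep {v : W × ℕ | v.1 ≤ w} (G n) := by
      intro n
      simp only [hG]
      split_ifs
      · exact (hed n).diff (Dep.iUnion fun m => Dep.iUnion fun _ => hed m)
      · exact fun _ _ _ => Iff.rfl
    have hGdis : Pairwise (Function.onFun Disjoint G) := by
      have h1 : ∀ n m, n < m → Disjoint (G n) (G m) := by
        intro n m hnm
        rw [disjoint_left]
        intro x hxn hxm
        simp only [hG] at hxn hxm
        split_ifs at hxn hxm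
        · exact hxm.2 (mem_biUnion (show n ∈ (Finset.Ico K m : Finset ℕ) from
            Finset.mem_Ico.2 ⟨by assumption, hnm⟩) hxn.1)
        · exact hxm
        · exact hxn
        · exact hxn
      intro n m hnm
      rcases lt_or_gt_of_ne hnm with h | h
      · exact h1 n m h
      · exact (h1 m n h).symm
    have hJ : ∀ n, K ≤ n → ∃ C : Set (Om (W × ℕ)), MeasurableSet C ∧
        Dep {v : W × ℕ | v.1 = β} C ∧ mu (W × ℕ) C ≤ 2⁻¹ ^ l ∧
        ∀ x, (∃ j, x ∈ It β j ∧ i j ≤ n ∧ n < i (j + 1)) → x ∈ C := by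
      intro n hn
      by_cases h : ∃ s : List Bool, i (Encodable.encode s) ≤ n ∧ n < i (Encodable.encode s + 1)
      · obtain ⟨s, hs1, hs2⟩ := h
        refine ⟨Cyl β s, cyl_meas β s, (cyl_dep β s).mono fun v hv => hv.1, ?_, ?_⟩
        · rw [cyl_mu]
          have hl : l ≤ s.length := by
            by_contra hlt
            rw [not_le] at hlt
            have h1 := hL s hlt
            have h2 : L ≤ n := (le_max_right _ _).trans hn
            omega
          exact pow_le_pow_of_le_one zero_le (by simp) hl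
        · rintro x ⟨j, hj, h1, h2⟩
          obtain ⟨t, ht, hxt⟩ := mem_it.1 hj
          have h3 : j < Encodable.encode s + 1 := hi.lt_iff_lt.1 (h1.trans_lt hs2)
          have h4 : Encodable.encode s < j + 1 := hi.lt_iff_lt.1 (hs1.trans_lt h2)
          have h5 : Encodable.encode t = Encodable.encode s := by omega
          rwa [← Encodable.encode_injective h5]
      · refine ⟨∅, MeasurableSet.empty, fun _ _ _ => Iff.rfl, by simp, ?_⟩
        rintro x ⟨j, hj, h1, h2⟩
        obtain ⟨t, rfl, -⟩ := mem_it.1 hj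
        exact absurd ⟨t, h1, h2⟩ h
    choose! C hCm hCd hCmu hC using hJ
    have hsub : Bd ⊆ ⋃ n, G n ∩ (if K ≤ n then C n else ∅) := by
      rintro x ⟨hx1, hx2⟩
      have hex : ∃ n, K ≤ n ∧ x ∈ e n := hx1 K
      have hsp := Nat.find_spec hex
      refine mem_iUnion.2 ⟨Nat.find hex, ?_, ?_⟩
      · simp only [hG, hsp.1, if_true]
        refine ⟨hsp.2, fun hmem => ?_⟩
        simp only [mem_iUnion, Finset.mem_Ico, exists_prop] at hmem
        obtain ⟨m, ⟨hm1, hm2⟩, hm3⟩ := hmem
        exact Nat.find_min hex hm2 ⟨hm1, hm3⟩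
      · rw [if_pos hsp.1]
        exact hC _ hsp.1 x (hx2 _ ((le_max_left _ _).trans hsp.1) hsp.2)
    have hdisj : Disjoint {v : W × ℕ | v.1 ≤ w} {v : W × ℕ | v.1 = β} := by
      rw [disjoint_left]
      rintro v hv hv'
      have h1 : v.1 ≤ w := hv
      have h2 : v.1 = β := hv'
      rw [h2] at h1
      exact absurd h1 (not_le.2 hwβ)
    calc mu (W × ℕ) Bd ≤ mu (W × ℕ) (⋃ n, G n ∩ (if K ≤ n then C n else ∅)) := measure_mono hsub
      _ ≤ ∑' n, mu (W × ℕ) (G n ∩ (if K ≤ n then C n else ∅)) := measure_iUnion_le _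
      _ ≤ ∑' n, mu (W × ℕ) (G n) * 2⁻¹ ^ l := by
          refine ENNReal.tsum_le_tsum fun n => ?_
          split_ifs with h
          · rw [indep hdisj (hGm n) (hCm n h) (hGd n) (hCd n h)]
            gcongr
            exact hCmu n h
          · simp
      _ = (∑' n, mu (W × ℕ) (G n)) * 2⁻¹ ^ l := ENNReal.tsum_mul_right
      _ = mu (W × ℕ) (⋃ n, G n) * 2⁻¹ ^ l := by rw [measure_iUnion hGdis hGm]
      _ ≤ 1 * 2⁻¹ ^ l := by gcongr; exact prob_le_one
      _ = 2⁻¹ ^ l := one_mul _
  have h0 : Tendsto (fun l : ℕ => (2⁻¹ : ℝ≥0∞) ^ l) atTop (𝓝 0) :=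
    ENNReal.tendsto_pow_atTop_nhds_zero_of_lt_one (by simp)
  exact le_antisymm (ge_of_tendsto' h0 key) zero_le

/-- the names depending on the coordinates with first component at most `w` only -/
def RW (W : Type) [LE W] (w : W) (e : EE (W × ℕ)) : Prop := ∀ n, Dep {v : W × ℕ | v.1 ≤ w} (e.1 n)

theorem forces_points [LinearOrder W] (hb : ∀ f : ℕ → W, ∃ w, ∀ n, f n < w)
    (p : MAlg (mu (W × ℕ))) :
    p ∈ PointsN (MAlg (mu (W × ℕ))) (ℕ → ℕ) W (EE (W × ℕ)) id (RW W) := by
  rw [PointsN, mem_fex]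
  intro p' _
  refine ⟨p', le_rfl, fun e n => cst (e.1 n), ?_, ?_⟩
  · intro x
    rw [mem_fex]
    intro r _
    refine ⟨r, le_rfl, ⟨fun n => val (x n), fun n => val_meas _⟩, ?_⟩
    rw [(rep_all fun n : ℕ => rep_iff (rep_meets (x n)) (rep_cst (val_meas (x n)))).2]
    exact ae_of_all _ fun y _ n => Iff.rfl
  · intro w c
    rw [mem_fimp]
    intro q _ hc
    refine ⟨q, le_rfl, ?_⟩
    rw [mem_fex]
    intro r _
    obtain ⟨β, hβ⟩ := hb fun _ => w
    refine ⟨r, le_rfl, fun j => cst (It β j), ?_, ?_⟩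
    · change r ∈ InfN fun n => meets (cst (It β n))
      rw [(rep_infN fun n => rep_cst (it_meas β n)).2]
      exact ae_of_all _ fun x _ N => it_inf β x N
    · intro e
      rw [(rep_imp (rep_ground (RW W w e)) (rep_imp (rep_infN fun n => rep_cst (e.2 n))
        (rep_infN fun n => rep_and (rep_cst (e.2 n)) (rep_all fun j : ℕ =>
          rep_imp (rep_cst (it_meas β j)) (rep_ground (¬ (id c j ≤ n ∧ n < id c (j + 1)))))))).2]
      by_cases he : RW W w e
      · have h1 : ∀ N, ∀ᵐ x ∂(mu (W × ℕ)), ¬ ((∀ M, ∃ n, M ≤ n ∧ x ∈ e.1 n) ∧ ∀ n, N ≤ n → x ∈ e.1 n →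
            ∃ j, x ∈ It β j ∧ c j ≤ n ∧ n < c (j + 1)) := by
          intro N
          rw [ae_iff]
          simp only [not_not]
          exact null_points (hβ 0) hc.1 e.2 he N
        filter_upwards [ae_all_iff.2 h1] with x hx _ _ hinf N
        by_contra hcon
        push Not at hcon
        refine hx N ⟨hinf, fun n hn hen => ?_⟩
        obtain ⟨j, hj, h2, h3⟩ := hcon n hn hen
        exact ⟨j, hj, h2, h3⟩
      · exact ae_of_all _ fun x _ h => absurd h he

theorem forces [LinearOrder W] [Nonempty W] {u : W → ℕ → ℕ} (hb : ∀ f : ℕ → W, ∃ w, ∀ n, f n < w)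
    (hu : ∀ g : ℕ → ℕ, ∃ w, ∀ N, ∃ n, N ≤ n ∧ g n < u w n)
    (hW : ∀ 𝒢 : W → Set (Set ℕ), (∀ w, GDense (𝒢 w)) → ∃ A : Set ℕ, A.Infinite ∧ ∀ w, A ∈ 𝒢 w)
    (p : MAlg (mu (W × ℕ))) :
    p ∈ HypN (MAlg (mu (W × ℕ))) (ℕ → ℕ) W (EE (W × ℕ)) id u (RW W) := by
  have hcov : ∀ e : EE (W × ℕ), ∃ w, RW W w e := by
    intro e
    choose C hC hd using fun n => exists_countable (e.2 n)
    obtain ⟨w, hw⟩ := exists_above hb ((countable_iUnion hC).image Prod.fst)
    refine ⟨w, fun n => (hd n).mono fun i hi => ?_⟩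
    exact (hw i.1 ⟨i, mem_iUnion.2 ⟨n, hi⟩, rfl⟩).le
  exact ⟨hcov, forces_unb hu p, forces_dom p, forces_iter p, forces_select hW p, forces_points hb p⟩

end Pool.Agent.H735.MG
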