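import Mathlib
import Pool.Agent.H735.MG.Defs
import Pool.Graph.R_seed8.R582.Coh.Real

set_option autoImplicit false

/-!
# Consequences of the hypothesis
-/

namespace Pool.Agent.H735.MG

open Cardinal Set Filter
open Pool.Agent.R582.Coh (B B_inj continuous_B)

theorem Hull.mono {F : ℕ → ℕ → Prop} {n n' m m' : ℕ} (h : Hull F n m) (hn : n' ≤ n) (hm : m ≤ m') :
    Hull F n' m' := fun k hk => by
  obtain ⟨l, hl, h'⟩ := h k (hk.trans hn)
  exact ⟨l, hl.trans hm, h'⟩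

theorem exists_hull {F : ℕ → ℕ → Prop} (h : ∀ n, ∃ m, F n m) (n : ℕ) : ∃ m, Hull F n m := by
  choose f hf using h
  refine ⟨(Finset.range (n + 1)).sup f, fun n' hn' => ⟨f n', ?_, hf n'⟩⟩
  exact Finset.le_sup (f := f) (Finset.mem_range.2 (Nat.lt_succ_of_le hn'))

/-- iterated hulls -/
def Pr (i : ℕ → ℕ) (F : ℕ → ℕ → Prop) : ℕ → ℕ → ℕ → Prop
  | 0, c, m => c ≤ m
  | l + 1, c, m => ∃ c' ≤ m, Hull F (i (c + 1)) (i c') ∧ Pr i F l c' m

theorem Pr.mono {i : ℕ → ℕ} {F : ℕ → ℕ → Prop} : ∀ {l c m m' : ℕ}, Pr i F l c m → m ≤ m' →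
    Pr i F l c m' := by
  intro l
  induction l with
  | zero => intro c m m' h hm; exact le_trans (show c ≤ m from h) hm
  | succ l ih =>
    rintro c m m' ⟨c', hc', h1, h2⟩ hm
    exact ⟨c', hc'.trans hm, h1, ih h2 hm⟩

theorem Pr.tot {i : ℕ → ℕ} (hi : StrictMono i) {F : ℕ → ℕ → Prop} (h : ∀ n, ∃ m, F n m) :
    ∀ l c, ∃ m, Pr i F l c m := by
  intro l
  induction l with
  | zero => intro c; exact ⟨c, le_refl c⟩
  | succ l ih =>
    intro c
    obtain ⟨M, hM⟩ := exists_hull h (i (c + 1))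
    obtain ⟨m, hm⟩ := ih M
    refine ⟨max m M, M, le_max_right _ _, hM.mono le_rfl (hi.id_le M), hm.mono (le_max_left _ _)⟩

theorem Pr.key {i k : ℕ → ℕ} (hi : StrictMono i) {F : ℕ → ℕ → Prop} {N : ℕ}
    (hbad : ∀ n, N ≤ n → ¬ Hull F (i (k n + 1)) (i (k (n + 1)))) :
    ∀ l c m n, N ≤ n → k n ≤ c → Pr i F l c m → k (n + l) ≤ m := by
  intro l
  induction l with
  | zero =>
    intro c m n _ hc h
    exact hc.trans h
  | succ l ih =>
    rintro c m n hn hc ⟨c', hc', h1, h2⟩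
    have h3 : k (n + 1) ≤ c' := by
      by_contra hlt
      rw [not_le] at hlt
      exact hbad n hn (h1.mono (hi.monotone (by omega)) (hi.monotone hlt.le))
    have := ih c' m (n + 1) (by omega) h3 h2
    rwa [show n + (l + 1) = n + 1 + l by omega]

/-- the finite choice property of Menger sets -/
theorem IsMenger.bound {X : Set ℝ} (hX : IsMenger X) (V : ℕ → ℕ → Set ℝ) (hV : ∀ n m, IsOpen (V n m))
    (hm : ∀ n, Monotone (V n)) (hc : ∀ n, X ⊆ ⋃ m, V n m) : ∃ g : ℕ → ℕ, ∀ x ∈ X, ∃ n, x ∈ V n (g n) := by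
  obtain ⟨F, hF, hF'⟩ := hX (fun n => range (V n)) (fun n => ⟨by rintro _ ⟨m, rfl⟩; exact hV n m, by
    rw [sUnion_range]; exact hc n⟩)
  have h1 : ∀ n, ∃ M, ∀ S ∈ F n, S ⊆ V n M := by
    intro n
    have h2 : ∀ S ∈ F n, ∃ m, V n m = S := fun S hS => (hF n).1 hS
    choose! f hf using h2
    obtain ⟨M, hM⟩ := ((hF n).2.image f).bddAbove
    refine ⟨M, fun S hS => ?_⟩
    rw [← hf S hS]
    exact hm n (hM ⟨S, hS, rfl⟩)
  choose g hg using h1
  refine ⟨g, fun x hx => ?_⟩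
  obtain ⟨n, hn⟩ := mem_iUnion.1 (hF' hx)
  obtain ⟨S, hS, hxS⟩ := hn
  exact ⟨n, hg n S hS hxS⟩

theorem IsMenger.bound' {X : Set ℝ} (hX : IsMenger X) (V : ℕ → ℕ → Set ℝ)
    (hV : ∀ n m, IsOpen (V n m)) (hm : ∀ n, Monotone (V n)) (hc : ∀ n, X ⊆ ⋃ m, V n m) :
    ∃ g : ℕ → ℕ, ∀ x ∈ X, ∀ N, ∃ n, N ≤ n ∧ x ∈ V n (g n) := by
  choose g hg using fun N => hX.bound (fun n => V (n + N)) (fun n m => hV _ m) (fun n => hm _)
    (fun n => hc _)
  refine ⟨fun n => (Finset.range (n + 1)).sup fun N => g N (n - N), fun x hx N => ?_⟩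
  obtain ⟨n, hn⟩ := hg N x hx
  refine ⟨n + N, by omega, hm (n + N) ?_ hn⟩
  have h1 := Finset.le_sup (f := fun N' => g N' (n + N - N')) (s := Finset.range (n + N + 1))
    (b := N) (Finset.mem_range.2 (by omega))
  simpa using h1

theorem isOpen_hull {F : ℝ → ℕ → ℕ → Prop} (hF : ∀ n m, IsOpen {x | F x n m}) (n m : ℕ) :
    IsOpen {x | Hull (F x) n m} := by
  have : {x | Hull (F x) n m} = ⋂ n' ∈ Finset.range (n + 1), ⋃ m' ∈ Finset.range (m + 1),
      {x | F x n' m'} := by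
    ext x
    simp only [mem_ofPred_eq, Hull, mem_iInter, mem_iUnion, Finset.mem_range, Nat.lt_succ_iff,
      exists_prop]
  rw [this]
  exact isOpen_biInter_finset fun n' _ => isOpen_biUnion fun m' _ => hF n' m'

theorem isOpen_pr {i : ℕ → ℕ} {F : ℝ → ℕ → ℕ → Prop} (hF : ∀ n m, IsOpen {x | F x n m}) :
    ∀ l c m, IsOpen {x | Pr i (F x) l c m} := by
  intro l
  induction l with
  | zero =>
    intro c m
    exact isOpen_const
  | succ l ih =>
    intro c m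
    have : {x | Pr i (F x) (l + 1) c m} = ⋃ c' ∈ Finset.range (m + 1),
        {x | Hull (F x) (i (c + 1)) (i c')} ∩ {x | Pr i (F x) l c' m} := by
      ext x
      simp only [mem_ofPred_eq, Pr, mem_iUnion, Finset.mem_range, Nat.lt_succ_iff, exists_prop,
        mem_inter_iff]
    rw [this]
    exact isOpen_biUnion fun c' _ => (isOpen_hull hF _ _).inter (ih c' m)

/-- for a Menger set all sparse sequences of blocks are good -/
theorem IsMenger.sparse {X : Set ℝ} (hX : IsMenger X) {i : ℕ → ℕ} (hi : StrictMono i)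
    {F : ℝ → ℕ → ℕ → Prop} (hF : ∀ n m, IsOpen {x | F x n m}) (ht : ∀ x ∈ X, ∀ n, ∃ m, F x n m) :
    ∃ g : ℕ → ℕ, ∀ k : ℕ → ℕ, StrictMono k → (∀ n, g n ≤ k n) → ∀ x ∈ X, ∀ N, ∃ n, N ≤ n ∧
      Hull (F x) (i (k n + 1)) (i (k (n + 1))) := by
  obtain ⟨g, hg⟩ := hX.bound' (fun n m => {x | Pr i (F x) (n + 1) n m}) (fun n m => isOpen_pr hF _ _ _)
    (fun n m m' h x hx => Pr.mono hx h) (fun n x hx => by
      obtain ⟨m, hm⟩ := Pr.tot hi (ht x hx) (n + 1) n
      exact mem_iUnion.2 ⟨m, hm⟩)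
  refine ⟨fun n => g (n - 1) + 1, fun k hk hgk x hx N => ?_⟩
  by_contra hcon
  push Not at hcon
  obtain ⟨n, hn, hxn⟩ := hg x hx (k N)
  have h1 := Pr.key hi hcon (n + 1) n (g n) N le_rfl hn hxn
  have h2 := hgk (n + 1)
  simp only [Nat.add_sub_cancel] at h2
  have h3 : k (n + 1) ≤ k (N + (n + 1)) := hk.monotone (by omega)
  omega

section

variable {K W E : Type} {d : K → ℕ → ℕ} {u : W → ℕ → ℕ} {R : W → E → Prop}

theorem Hyp.exists_surj (h : Hyp K W E d u R) : ∃ s : E → ℝ, Function.Surjective s := by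
  obtain ⟨ev, hev, -⟩ := h.points
  have h1 : #(ℕ → Prop) ≤ #E := by
    refine Cardinal.mk_le_of_surjective (f := fun e => ev e) fun x => ?_
    obtain ⟨e, he⟩ := hev x
    exact ⟨e, funext fun n => propext (he n).symm⟩
  have h2 : #ℝ ≤ #E := by
    refine le_trans ?_ h1
    rw [Cardinal.mk_real]
    simp
  obtain ⟨i⟩ := Cardinal.le_def _ _ |>.mp h2
  exact ⟨Function.invFun i, Function.invFun_surjective i.injective⟩

theorem Hyp.menger (h : Hyp K W E d u R) {X : W → Set ℝ} (hX : ∀ w, IsMenger (X w)) :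
    IsMenger (⋃ w, X w) := by
  classical
  intro U hU
  rcases (⋃ w, X w).eq_empty_or_nonempty with h0 | ⟨x₀, hx₀⟩
  · exact ⟨fun _ => ∅, fun _ => ⟨empty_subset _, finite_empty⟩, by rw [h0]; exact empty_subset _⟩
  have h1 : ∀ n, ∃ O : ℕ → Set ℝ, (∀ m, O m ∈ U n) ∧ (⋃ w, X w) ⊆ ⋃ m, O m := by
    intro n
    obtain ⟨T, hTc, hTU, hT⟩ := TopologicalSpace.isOpen_sUnion_countable (U n) (hU n).1
    have hne : T.Nonempty := by
      have : x₀ ∈ ⋃₀ T := by rw [hT]; exact (hU n).2 hx₀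
      obtain ⟨S, hS, -⟩ := this
      exact ⟨S, hS⟩
    obtain ⟨O, hO⟩ := hTc.exists_eq_range hne
    refine ⟨O, fun m => hTU (hO ▸ mem_range_self m), ?_⟩
    have hOU : (⋃ m, O m) = ⋃₀ U n := by rw [← sUnion_range, ← hO, hT]
    rw [hOU]
    exact (hU n).2
  choose O hO hOc using h1
  obtain ⟨s, hs⟩ := h.exists_surj
  have hop : ∀ n m, IsOpen {x | x ∈ O n m} := fun n m => (hU n).1 _ (hO n m)
  obtain ⟨c, hc, hsel⟩ := h.select (fun w e n m => s e ∈ X w → s e ∈ O n m) (by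
    intro w c hc
    obtain ⟨g, hg⟩ := (hX w).sparse hc (F := fun x n m => x ∈ O n m) hop (fun x hx n =>
      mem_iUnion.1 (hOc n (mem_iUnion.2 ⟨w, hx⟩)))
    obtain ⟨c', hc'⟩ := h.dom (fun n m => m = g n) fun n => ⟨_, rfl⟩
    refine ⟨c', fun c'' hc'' e N => ?_⟩
    by_cases he : s e ∈ X w
    · obtain ⟨n, hn, hh⟩ := hg (d c'') hc''.1 (fun n => by
        obtain ⟨m, rfl, hm⟩ := hc' n
        exact hm.trans (hc''.2 n)) (s e) he N
      refine ⟨n, hn, fun n' hn' => ?_⟩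
      obtain ⟨m', hm', hh'⟩ := hh n' hn'
      exact ⟨m', hm', fun _ => hh'⟩
    · exact ⟨N, le_rfl, fun n' _ => ⟨0, Nat.zero_le _, fun h => absurd h he⟩⟩)
  refine ⟨fun n => O n '' Iic (d c (n + 1)), fun n => ⟨?_, (finite_Iic _).image _⟩, ?_⟩
  · rintro _ ⟨m, -, rfl⟩
    exact hO n m
  · intro x hx
    obtain ⟨w, hw⟩ := mem_iUnion.1 hx
    obtain ⟨e, rfl⟩ := hs x
    obtain ⟨n, -, hn⟩ := hsel w e 0
    obtain ⟨m, hm, hm'⟩ := hn (d c n) le_rfl
    refine mem_iUnion.2 ⟨d c n, O (d c n) m, ⟨m, ?_, rfl⟩, hm' hw⟩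
    exact hm.trans (hc.monotone (Nat.succ_le_succ (hc.id_le n)))

theorem Hyp.gg_le (h : Hyp K W E d u R) : gg ≤ #W := by
  obtain ⟨ev, hev, hpt⟩ := h.points
  set G : W → Set (Set ℕ) := fun w => {A | A.Infinite ∧ ∀ e, R w e → (∀ N, ∃ n, N ≤ n ∧ ev e n) →
    ∀ N, ∃ n, N ≤ n ∧ ev e n ∧ n ∉ A} with hG
  have h1 : gg ≤ #(range G) := by
    apply csInf_le'
    refine ⟨range G, rfl, ?_, ?_⟩
    · rintro _ ⟨w, rfl⟩
      refine ⟨fun A hA => hA.1, fun A hA B' hB hBA => ⟨hB, fun e he hinf N => ?_⟩, ?_⟩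
      · obtain ⟨M, hM⟩ := hBA.bddAbove
        obtain ⟨n, hn, hen, hnA⟩ := hA.2 e he hinf (max N (M + 1))
        refine ⟨n, (le_max_left _ _).trans hn, hen, fun hnB => ?_⟩
        have h2 := hM (show n ∈ B' \ A from ⟨hnB, hnA⟩)
        have h3 : M + 1 ≤ n := (le_max_right _ _).trans hn
        omega
      · intro p hp hp0
        obtain ⟨c, hc, hcg⟩ := h.iter (fun n m => m = p (n + 1)) fun n => ⟨_, rfl⟩
        obtain ⟨I, hI, hI'⟩ := hpt w c hc
        have hsub : ∀ j, p (d c j + 1) ≤ d c (j + 1) := fun j => by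
          obtain ⟨m, rfl, hm⟩ := hcg j
          exact hm
        refine ⟨d c '' {j | I j}, ?_, ?_, ?_⟩
        · refine Set.Infinite.image hc.1.injective.injOn ?_
          refine Set.infinite_of_not_bddAbove fun ⟨M, hM⟩ => ?_
          obtain ⟨n, hn, hIn⟩ := hI (M + 1)
          have := hM hIn
          omega
        · refine Set.infinite_of_not_bddAbove fun ⟨M, hM⟩ => ?_
          obtain ⟨j, hj, hIj⟩ := hI (M + 1)
          have h2 : p (d c j) ∈ {m : ℕ | ∃ i ∈ d c '' {j | I j}, p i ≤ m ∧ m < p (i + 1)} :=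
            ⟨d c j, ⟨j, hIj, rfl⟩, le_rfl, hp (Nat.lt_succ_self _)⟩
          have h3 := hM h2
          have h4 : j ≤ d c j := hc.1.id_le j
          have h5 : d c j ≤ p (d c j) := hp.id_le _
          omega
        · intro e he hinf N
          obtain ⟨n, hn, hen, hnI⟩ := hI' e he hinf N
          refine ⟨n, hn, hen, ?_⟩
          rintro ⟨_, ⟨j, hj, rfl⟩, h2, h3⟩
          exact hnI j hj ⟨(hp.id_le _).trans h2, h3.trans_le (hsub j)⟩
    · rw [eq_empty_iff_forall_notMem]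
      intro A hA
      obtain ⟨e, he⟩ := hev fun n => n ∈ A
      obtain ⟨w, hw⟩ := h.cover e
      have h2 : A ∈ G w := hA _ ⟨w, rfl⟩
      have h3 : ∀ N, ∃ n, N ≤ n ∧ ev e n := by
        intro N
        obtain ⟨n, hn, hn'⟩ := h2.1.exists_gt N
        exact ⟨n, hn'.le, (he n).1 hn⟩
      obtain ⟨n, -, h4, h5⟩ := h2.2 e hw h3 0
      exact h5 ((he n).2 h4)
  exact h1.trans Cardinal.mk_range_le

theorem Hyp.bb_le (h : Hyp K W E d u R) : bb ≤ #W := by
  have h1 : bb ≤ #(range u) := by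
    apply csInf_le'
    refine ⟨range u, rfl, fun g => ?_⟩
    obtain ⟨w, hw⟩ := h.unb (fun n m => m = g n) fun n => ⟨_, rfl⟩
    refine ⟨u w, ⟨w, rfl⟩, fun hev => ?_⟩
    obtain ⟨N, hN⟩ := eventually_atTop.1 hev
    obtain ⟨n, hn, m, rfl, hm⟩ := hw N
    exact absurd (hN n hn) (not_le.2 hm)
  exact h1.trans Cardinal.mk_range_le

end

/-- the open sets of the bad sequence of covers -/
def OO (n m : ℕ) : Set ℝ := (B '' {y | y (Nat.pair n m) = false})ᶜ

theorem isOpen_OO (n m : ℕ) : IsOpen (OO n m) := by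
  rw [OO, isOpen_compl_iff]
  refine (IsCompact.image ?_ continuous_B).isClosed
  refine (isClosed_eq (continuous_apply _) continuous_const).isCompact

theorem mem_OO {y : ℕ → Bool} {n m : ℕ} : B y ∈ OO n m ↔ y (Nat.pair n m) = true := by
  rw [OO, mem_compl_iff, B_inj.mem_set_image, mem_ofPred_eq, Bool.not_eq_false]

theorem OO_inj (n : ℕ) : Function.Injective (OO n) := by
  intro m m' h
  by_contra hne
  have h1 : B (fun k => decide (k = Nat.pair n m)) ∈ OO n m := mem_OO.2 (by simp)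
  rw [h] at h1
  have h2 := mem_OO.1 h1
  simp only [decide_eq_true_eq, Nat.pair_eq_pair, true_and] at h2
  exact hne h2.symm

theorem exists_not_menger : ∃ X : Set ℝ, ¬ IsMenger X := by
  refine ⟨range fun f : ℕ → ℕ => B fun k => decide (f k.unpair.1 = k.unpair.2), fun h => ?_⟩
  obtain ⟨F, hF, hF'⟩ := h (fun n => range (OO n)) (fun n => ⟨by rintro _ ⟨m, rfl⟩; exact isOpen_OO n m, by
    rintro _ ⟨f, rfl⟩
    exact ⟨OO n (f n), ⟨f n, rfl⟩, mem_OO.2 (by simp)⟩⟩)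
  have h1 : ∀ n, ∃ k, OO n k ∉ F n := by
    intro n
    by_contra hcon
    push Not at hcon
    exact (Set.infinite_of_injective_forall_mem (OO_inj n) hcon) (hF n).2
  choose f hf using h1
  obtain ⟨n, hn⟩ := mem_iUnion.1 (hF' ⟨f, rfl⟩)
  obtain ⟨S, hS, hfS⟩ := hn
  obtain ⟨m, rfl⟩ := (hF n).1 hS
  have h2 := mem_OO.1 hfS
  simp only [Nat.unpair_pair, decide_eq_true_eq] at h2
  rw [← h2] at hS
  exact hf n hS

theorem isMenger_singleton (x : ℝ) : IsMenger {x} := by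
  intro U hU
  have h : ∀ n, ∃ u ∈ U n, x ∈ u := fun n => (hU n).2 rfl
  choose c hc hx using h
  refine ⟨fun n => {c n}, fun n => ⟨by simpa using hc n, finite_singleton _⟩, ?_⟩
  rintro y rfl
  exact mem_iUnion.mpr ⟨0, c 0, rfl, hx 0⟩

theorem isMenger_empty : IsMenger ∅ := fun _ _ =>
  ⟨fun _ => ∅, fun _ => ⟨empty_subset _, finite_empty⟩, empty_subset _⟩

theorem Hyp.lt_add {K W E : Type} {d : K → ℕ → ℕ} {u : W → ℕ → ℕ} {R : W → E → Prop}
    (h : Hyp K W E d u R) : #W < addMenger := by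
  have hne : {κ : Cardinal.{0} | ∃ 𝓕 : Set (Set ℝ), #𝓕 = κ ∧ (∀ X ∈ 𝓕, IsMenger X) ∧
      ¬ IsMenger (⋃₀ 𝓕)}.Nonempty := by
    obtain ⟨X, hX⟩ := exists_not_menger
    refine ⟨_, (fun x : ℝ => ({x} : Set ℝ)) '' X, rfl, ?_, ?_⟩
    · rintro _ ⟨x, -, rfl⟩
      exact isMenger_singleton x
    · have : ⋃₀ ((fun x : ℝ => ({x} : Set ℝ)) '' X) = X := by
        ext x
        simp
      rw [this]
      exact hX
  obtain ⟨𝓕, hF3, hF1, hF2⟩ := csInf_mem hne
  show #W < sInf _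
  rw [← hF3]
  by_contra hle
  rw [not_lt] at hle
  apply hF2
  rcases 𝓕.eq_empty_or_nonempty with rfl | hFne
  · rw [sUnion_empty]
    exact isMenger_empty
  · have : Nonempty 𝓕 := hFne.to_subtype
    obtain ⟨s, hs⟩ : ∃ s : W → 𝓕, Function.Surjective s := by
      obtain ⟨i⟩ := Cardinal.le_def _ _ |>.mp hle
      exact ⟨Function.invFun i, Function.invFun_surjective i.injective⟩
    have h1 : ⋃₀ 𝓕 = ⋃ w, (s w).1 := by
      ext x
      constructor
      · rintro ⟨X, hX, hx⟩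
        obtain ⟨k, hk⟩ := hs ⟨X, hX⟩
        exact mem_iUnion.mpr ⟨k, by rw [hk]; exact hx⟩
      · intro hx
        obtain ⟨k, hk⟩ := mem_iUnion.mp hx
        exact ⟨_, (s k).2, hk⟩
    rw [h1]
    exact h.menger fun w => hF1 _ (s w).2

theorem Hyp.max_lt {K W E : Type} {d : K → ℕ → ℕ} {u : W → ℕ → ℕ} {R : W → E → Prop}
    (h : Hyp K W E d u R) : max bb gg < addMenger :=
  (max_le h.bb_le h.gg_le).trans_lt h.lt_add

end Pool.Agent.H735.MG
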